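import Pool.Agent.N12.KM.DD
import Pool.Agent.N12.KM.Cls
import Pool.Agent.N24.KM.Int
import Pool.Agent.N24.KM.Sep
import Pool.Agent.N24.KM.Ae
import Pool.Agent.N24.KM.Wey
import Pool.Agent.N24.KM.Tor

/-!
# MP_dd1803_nt: Zilber-Pink in split semiabelian varieties along arbitrary sequences of coefficient
vectors, for almost all multipliers, for all elliptic curves and all subvarieties simultaneously

Let `E_i : y² = x³ + A_i x + B_i` be arbitrary elliptic curves over the complex numbers and let
`𝔖 = E_1^(q_1) × … × E_n^(q_n) × G_m^k` (`Amb`), of dimension `N = q_1 + … + q_n + k`, with the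
coordinates `x(P_{i,l})` and `u_w`. The starting result `RandomMaps` considers the rational maps
`F_c : 𝔖 ⇢ ℂ^m` whose `m` numerators and `m` denominators are polynomials of multidegree `D` in the
coordinates with the integral coefficient vector `c ∈ ℤ^r`, and shows for every irreducible `V ⊆ ℂ^m`
that for a positive proportion of all the vectors `c` in a box the pull-back `pullback c V` has no
atypical intersections with special subvarieties.

Here `c_0, c_1, …` is a sequence of coefficient vectors of which nothing is known but that it comes from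
ARBITRARY sequences of numbers by generic multipliers:

* `c_{t,i} = ⌊a_{i,t} α_i⌋`, where for every coefficient `i` the real numbers `a_{i,0}, a_{i,1}, …` have
  mutual distances `≥ δ > 0` (for example `t!`, `2 ^ t`, any subsequence of the primes, any enumeration
  of any infinite set of integers), for almost all `α ∈ ℝ^r`;
* `c_{t,i} = ⌊ξ_i α_i ^ (k_t)⌋` for different natural numbers `k_0, k_1, …` and `ξ_i ≠ 0`, for almost all
  `α` with `α_i > 1`;
* in general `c_{t,i} = ⌊f_{i,t}(α_i)⌋` for sequences of functions which satisfy the hypothesis of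
  Koksma's theorem on intervals `[a_i, b_i]` (`Koksma`), for almost all `α` in the box.

**Theorem.** For almost all `α` the following is true for ALL elliptic curves `E_1, …, E_n` over the
complex numbers, ALL irreducible `V ⊆ ℂ^m` and ALL residue classes `c₀` modulo `Q₀` simultaneously
(uncountably many conditions): there is a `δ > 0` such that for all large `T` for at least `δ T` of the
numbers `t < T` the vector `c_t` is congruent to `c₀` modulo `Q₀` and the pull-back of `V` under
`F_{c_t}` has no atypical intersections with special subvarieties: for every `ρ` every irreducible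
closed subset of its intersection with the union of the algebraic subgroups of codimension `ρ` has
dimension at most `N - (m - dim V) - ρ`.

There is no condition on the rate of growth, on the regularity or on the arithmetic of the sequences.

Proof: the residue class of coefficient vectors of the starting library (`TH971.SP`); by Koksma's
theorem in several variables (engine `Pool.Agent.N24.KM`) almost all metric sequences visit every
residue class with its natural frequency (`Pool.Agent.N12.KM.Cls`); there are only countably many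
residue classes.
-/

set_option autoImplicit false

namespace Pool.Agent.Results.MP_dd1803_nt.MetricSequences

open MvPolynomial Pool.Agent.W282.ZP MeasureTheory
open Pool.Agent.Results.MP_dd1803_nt.RandomMaps
open Pool.Agent.N24.KM (Koksma)

variable {n : ℕ} {q : Fin n → ℕ} {k : ℕ}

/-- For all elliptic curves, all irreducible `V ⊆ ℂ^m` and all residue classes `c₀` modulo `Q₀` there is
a `δ > 0` such that for all large `T` for at least `δ T` of the numbers `t < T` the vector `c t` is
congruent to `c₀` modulo `Q₀` and the pull-back of `V` under the rational map with coefficients `c t` has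
no atypical intersections with special subvarieties. -/
def ManyGood {m : ℕ} {D : Ind q k → ℕ} (c : ℕ → Coeffs m D) : Prop :=
  ∀ (A B : Fin n → ℂ) (V : Set (Fin m → ℂ)), (idealOf V).IsPrime →
    ∀ (Q₀ : ℕ) (c₀ : Coeffs m D), 0 < Q₀ → ∃ δ : ℝ, 0 < δ ∧ ∀ᶠ T : ℕ in Filter.atTop,
      δ * (T : ℝ) ≤ (({t : ℕ | t < T ∧ (∀ i, (Q₀ : ℤ) ∣ c t i - c₀ i) ∧
        NoAtypical (A := A) (B := B) (pullback (c t) V) m (zdim V)}.ncard : ℕ) : ℝ)

theorem manyGood_of_often {m : ℕ} {D : Ind q k → ℕ} (hD : ∀ i, 0 < D i)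
    (hDq : ∀ j : (i : Fin n) × Fin (q i), q j.1 ≤ D (Sum.inl j)) (c : ℕ → Coeffs m D)
    (h : ∀ (Q : ℕ), 0 < Q → ∀ G : Coeffs m D, Pool.Agent.N12.KM.Often c (Pool.Agent.N12.KM.cls Q G)
      (((Q : ℝ) ^ Fintype.card (Fin m × Fin 2 × ((i : Ind q k) → Fin (D i + 1))))⁻¹)) :
    ManyGood c := by
  intro A B V hV Q₀ c₀ hQ₀
  obtain ⟨Q, G, hQ, hgood⟩ :=
    Pool.Agent.N12.KM.exists_good_class A B q k m V hV D hD hDq Q₀ hQ₀ c₀
  set s : ℝ := (Q : ℝ) ^ Fintype.card (Fin m × Fin 2 × ((i : Ind q k) → Fin (D i + 1))) with hs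
  have hQR : (0 : ℝ) < Q := Nat.cast_pos.2 hQ
  have hs0 : 0 < s := by positivity
  refine ⟨s⁻¹ / 2, by positivity, ?_⟩
  filter_upwards [h Q hQ G (s⁻¹ / 2) (by positivity)] with T hT
  have h1 : (s⁻¹ - s⁻¹ / 2) * (T : ℝ) = s⁻¹ / 2 * T := by ring
  rw [h1] at hT
  refine hT.trans (Nat.cast_le.2 (Set.ncard_le_ncard (fun t ht => ⟨ht.1, hgood _ ht.2⟩)
    ((Set.finite_Iio T).subset fun t ht => ht.1)))

theorem result {n : ℕ} (q : Fin n → ℕ) (k m : ℕ) (D : Ind q k → ℕ) (hD : ∀ i, 0 < D i)
    (hDq : ∀ j : (i : Fin n) × Fin (q i), q j.1 ≤ D (Sum.inl j)) :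
    (∀ (a : Fin m × Fin 2 × ((i : Ind q k) → Fin (D i + 1)) → ℕ → ℝ) (δ : ℝ), 0 < δ →
      (∀ i s t, s ≠ t → δ ≤ |a i s - a i t|) →
      ∀ᵐ α : Fin m × Fin 2 × ((i : Ind q k) → Fin (D i + 1)) → ℝ,
        ManyGood (D := D) (fun t i => ⌊a i t * α i⌋)) ∧
    (∀ (e : ℕ → ℕ) (ξ : Fin m × Fin 2 × ((i : Ind q k) → Fin (D i + 1)) → ℝ),
      Function.Injective e → (∀ i, ξ i ≠ 0) →
      ∀ᵐ α : Fin m × Fin 2 × ((i : Ind q k) → Fin (D i + 1)) → ℝ, (∀ i, 1 < α i) →
        ManyGood (D := D) (fun t i => ⌊ξ i * α i ^ e t⌋)) ∧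
    (∀ (a b : Fin m × Fin 2 × ((i : Ind q k) → Fin (D i + 1)) → ℝ)
      (f : Fin m × Fin 2 × ((i : Ind q k) → Fin (D i + 1)) → ℕ → ℝ → ℝ),
      (∀ i, a i < b i) → (∀ i, Koksma (a i) (b i) (f i)) →
      ∀ᵐ α : Fin m × Fin 2 × ((i : Ind q k) → Fin (D i + 1)) → ℝ,
        (∀ i, α i ∈ Set.Icc (a i) (b i)) → ManyGood (D := D) (fun t i => ⌊f i t (α i)⌋)) := by
  classical
  have hW : Pool.Agent.N24.KM.S_WEY :=
    Pool.Agent.N24.KM.t_WEY Pool.Agent.N24.KM.t_INT Pool.Agent.N24.KM.t_SEP Pool.Agent.N24.KM.t_AE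
  have hT : Pool.Agent.N24.KM.S_TOR := Pool.Agent.N24.KM.t_TOR
  have key : Pool.Agent.N12.KM.Metric'
      (fun c : ℕ → Coeffs m D => ManyGood (D := D) c) := by
    refine Pool.Agent.N12.KM.metric'_of_koksma _ fun a b f hab hf => ?_
    have h1 : ∀ p : ℕ × Coeffs m D, ∀ᵐ α : Fin m × Fin 2 × ((i : Ind q k) → Fin (D i + 1)) → ℝ,
        0 < p.1 → (∀ i, α i ∈ Set.Icc (a i) (b i)) → Pool.Agent.N12.KM.Often
          (fun t i => ⌊f i t (α i)⌋) (Pool.Agent.N12.KM.cls p.1 p.2)
          (((p.1 : ℝ) ^ Fintype.card (Fin m × Fin 2 × ((i : Ind q k) → Fin (D i + 1))))⁻¹) := by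
      intro p
      rcases Nat.eq_zero_or_pos p.1 with h0 | h0
      · exact Filter.Eventually.of_forall fun α hα => absurd h0 hα.ne'
      · filter_upwards [(Pool.Agent.N12.KM.metric_cls hW hT h0 p.2).1 a b f hab hf] with α hα _ hbox
        exact hα hbox
    filter_upwards [ae_all_iff.2 h1] with α hα hbox
    exact manyGood_of_often hD hDq _ fun Q hQ G => hα (Q, G) hQ hbox
  exact ⟨key.2.1, key.2.2, key.1⟩

end Pool.Agent.Results.MP_dd1803_nt.MetricSequences
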