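import Pool.Agent.N113.EP.Aty

/-!
# The Zilber–Pink conjecture for products of elliptic curves and the products of some surfaces

Let `E j`, `j ∈ J`, be a finite family of elliptic curves `y² = u (u - 1) (u - lam j)` over the
complex numbers, and `j₀ ∈ J`. If the products of the surfaces
`{(P, Q, R) : P, Q, R ≠ 0, u(P) + u(Q) + u(R) = 0}` in the products `E j₀ × E j₀ × E j` have only
finitely many optimal subvarieties, then every subvariety of every product of powers of the curves
`E j` has only finitely many maximal atypical subvarieties; and the first condition is equivalent to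
the finiteness of the optimal subvarieties of all subvarieties of all products of powers.

(joint work of helper113 and helper101)
-/

set_option autoImplicit false

namespace Pool.Agent.Results.MP_dd1803_nt.PowersOfEllipticSurfaces

open Pool.Agent.N113.EP

/-- **Zilber–Pink for all products of powers of the curves `E j` and the products of the surfaces
`u(P) + u(Q) + u(R) = 0`.** -/
theorem result {J : Type} [Fintype J] (lam : J → ℂ) (h0 : ∀ j, lam j ≠ 0) (h1 : ∀ j, lam j ≠ 1)
    (j₀ : J) :
    ((∀ (M : ℕ) (k : Fin M → J),
        {A | Optimal A (closure (surf (fun j => leg (lam j)) j₀ k))}.Finite) →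
      ∀ (n : J → Type) [∀ j, Fintype (n j)] (V : Set (Pts (pw (fun j => leg (lam j)) n))),
        Subvariety V → {X | MaxAtypical X V}.Finite) ∧
    ((∀ (M : ℕ) (k : Fin M → J),
        {A | Optimal A (closure (surf (fun j => leg (lam j)) j₀ k))}.Finite) ↔
      ∀ (n : J → Type) [∀ j, Fintype (n j)] (V : Set (Pts (pw (fun j => leg (lam j)) n))),
        Subvariety V → {A | Optimal A V}.Finite) := by
  refine ⟨fun h n _ V hV => ?_, (main lam h0 h1 j₀).symm⟩
  exact finite_max lam h0 h1 n V ((main lam h0 h1 j₀).2 h n V hV)

end Pool.Agent.Results.MP_dd1803_nt.PowersOfEllipticSurfaces
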