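import Pool.Agent.Results.MP_dd1803_nt.RandomMaps
import Pool.Agent.N87.RO.Cls
import Pool.Agent.N87.RO.Pos
import Pool.Agent.N24.RW.Erg

/-!
# MP_dd1803_nt: Zilber-Pink in split semiabelian varieties along random orbits of groups of
coefficient vectors, for all elliptic curves and all subvarieties simultaneously

Let `E_i : y² = x³ + A_i x + B_i` be arbitrary elliptic curves over the complex numbers and let
`𝔖 = E_1^(q_1) × … × E_n^(q_n) × G_m^k` (`Amb`), of dimension `N = q_1 + … + q_n + k`, with the
coordinates `x(P_{i,l})` and `u_w`. The starting result `RandomMaps` considers the rational maps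
`F_c : 𝔖 ⇢ ℂ^m` whose `m` numerators and `m` denominators are polynomials of multidegree `D` in the
coordinates with the integral coefficient vector `c ∈ ℤ^r`, and shows for every irreducible `V ⊆ ℂ^m`
that for a positive proportion of all the vectors `c` in a box the pull-back `pullback c V` has no
atypical intersections with special subvarieties.

Here the coefficient vectors are those of one random orbit of a group of integral matrices. A `Walk`
is a finite family of matrices `s_0, …, s_M ∈ SL_r(ℤ)` which generates `SL_r(ℤ/q)` for all `q` prime to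
some `q₀`; by strong approximation every finite family which generates a Zariski dense subgroup of
`SL_r` is one, also if the subgroup has infinite index in `SL_r(ℤ)` (a thin group). The orbit of a
vector `v ≠ 0` along a sequence `w` of indices is `v, s_{w 0} v, s_{w 1} s_{w 0} v, …` (`orb`), and
`words` is the product of the uniform measures: the indices are chosen independently. The vectors of
the orbit grow exponentially, so that only logarithmically few vectors of every box are considered.

**Theorem.** Almost surely the following is true for ALL elliptic curves `E_1, …, E_n` over the complex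
numbers and ALL irreducible `V ⊆ ℂ^m` simultaneously (uncountably many conditions): there is a `δ > 0`
such that for all large `N` for at least `δ N` of the first `N` vectors `c` of the random orbit the
pull-back of `V` under `F_c` has no atypical intersections with special subvarieties: for every `ρ`
every irreducible closed subset of its intersection with the union of the algebraic subgroups of
codimension `ρ` has dimension at most `N - (m - dim V) - ρ`.

Proof: the residue class of coefficient vectors of the starting library (`TH971.SP`) is shown to exist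
for a modulus `Q` all of whose prime factors are large, and to contain vectors with a coordinate
prime to `Q` (`Pool.Agent.N87.RO.Cls`); `SL_r(ℤ/Q)` acts transitively on the vectors modulo `Q` with an
invertible coordinate, and by the ergodic theorem for random walks on finite groups (engine `N24.RW`)
the class is visited with positive frequency. As there are only countably many residue classes, this
is true almost surely for all classes simultaneously (`Pool.Agent.N87.RO.Pos`).
-/

set_option autoImplicit false

namespace Pool.Agent.Results.MP_dd1803_nt.RandomOrbits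

open MvPolynomial Pool.Agent.W282.ZP MeasureTheory
open Pool.Agent.Results.MP_dd1803_nt.RandomMaps
open Pool.Agent.N24.RW (Walk orb words)

variable {n : ℕ} {q : Fin n → ℕ} {k : ℕ}

/-- The residue class of coefficient vectors without atypical intersections, with a modulus all of
whose prime factors are greater than `N₀`. -/
theorem exists_good_class (A B : Fin n → ℂ) (q : Fin n → ℕ) (k m : ℕ) (V : Set (Fin m → ℂ))
    (hV : (idealOf V).IsPrime) (D : Ind q k → ℕ) (hD : ∀ i, 0 < D i)
    (hDq : ∀ j : (i : Fin n) × Fin (q i), q j.1 ≤ D (Sum.inl j)) (N₀ : ℕ) :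
    ∃ (Q : ℕ) (G : Coeffs m D), 0 < Q ∧ (∀ ℓ : ℕ, ℓ.Prime → ℓ ∣ Q → N₀ < ℓ) ∧
      (∀ j, IsCoprime (G (j, 1, fun _ => 0)) (Q : ℤ)) ∧
      ∀ c : Coeffs m D, (∀ i, (Q : ℤ) ∣ c i - G i) →
        NoAtypical (A := A) (B := B) (pullback c V) m (zdim V) := by
  classical
  have hfin : Algebra.trdeg ℂ (MvPolynomial (Fin m) ℂ ⧸ idealOf V) < Cardinal.aleph0 :=
    trdeg_lt_aleph0_of_finiteType
  obtain ⟨d, hd⟩ := Cardinal.lt_aleph0.1 hfin
  obtain ⟨K, Q, G, hK, hQ, hQp, hG, hmain⟩ := Pool.Agent.N87.RO.exists_class2 (q := q) (k := k) A B D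
    hD hDq (idealOf V) hd N₀
  refine ⟨Q, G, hQ, hQp, hG, fun c hc => ?_⟩
  have hkey := hmain c hc
  intro ρ s e W p hW hcl hprime hp
  obtain ⟨w, hwW, hpw, T, hT, hdimW⟩ :=
    Pool.Agent.W282.LF.generic_dim_open K W hprime hcl p hp
  obtain ⟨z, hzX, ⟨r, s', hρ, hE, a, ha, hau⟩, hwz⟩ := hW w hwW hpw
  choose E cc hcc hccP using hE
  have hco : Pool.Agent.TH971.SP.co (A := A) (B := B) z.P z.u = z.coord := by
    funext j
    rcases j with j | j
    · exact (xCoord_eq _).symm
    · rfl
  have hho : Pool.Agent.TH971.SP.hco (A := A) (B := B) z.P z.u = z.homog := by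
    funext j
    rcases j with j | j
    · by_cases h0 : z.P j.1 j.2 = 0
      · exact (if_pos h0).trans (if_pos h0).symm
      · refine (if_neg h0).trans (Eq.trans ?_ (if_neg h0).symm)
        rw [xCoord_eq]
    · rfl
  have hs : Fintype.card (Ind q k) = s := by
    rw [← Fintype.card_congr e, Fintype.card_fin]
  have h3 := hkey z.P z.u (by
      intro f hf
      rw [hho]
      exact hzX f hf) (fun i => toE (E i)) (fun i => relMod (E i) (z.P i)) (fun i a ha => ha)
      (relTor z.u z.ne_zero) (fun a ha => ha) (T.map e.toEmbedding) (by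
        rw [hco]
        have hT' : AlgebraicIndependent K (fun j : T => z.coord (e j)) := by
          convert hT using 1
          funext j
          exact (hwz j).symm
        let e' : (T.map e.toEmbedding : Finset (Ind q k)) ≃ T :=
          { toFun := fun j => ⟨e.symm j, by
              obtain ⟨t, ht, h⟩ := Finset.mem_map.1 j.2
              rw [← h]
              simpa using ht⟩
            invFun := fun j => ⟨e j, Finset.mem_map_of_mem _ j.2⟩
            left_inv := fun j => by simp
            right_inv := fun j => by simp }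
        have h5 := hT'.comp e' e'.injective
        convert h5 using 1
        funext j
        simp [e'])
  have h4 : ∀ i, r i ≤ Module.finrank (E i).O (relMod (E i) (z.P i)) := fun i =>
    le_finrank (E i) (z.P i) (cc i) (hcc i) (hccP i)
  have h5 := le_finrank_tor z.u z.ne_zero a ha hau
  have h6 : ∑ i, r i ≤ ∑ i, Module.finrank (E i).O (relMod (E i) (z.P i)) :=
    Finset.sum_le_sum fun i _ => h4 i
  have h7 : T.card + ∑ i, Module.finrank (E i).O (relMod (E i) (z.P i)) +
      Module.finrank ℤ (relTor z.u z.ne_zero) + m ≤ s + d := by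
    rw [Finset.card_map] at h3
    have hs' : Fintype.card (Pool.Agent.TH971.SP.Ix q k) = s := hs
    rw [hs'] at h3
    exact h3
  calc zdim W + (ρ : Cardinal) + (m : Cardinal)
      ≤ (T.card : Cardinal) + (ρ : Cardinal) + (m : Cardinal) := by gcongr
    _ = ((T.card + ρ + m : ℕ) : Cardinal) := by push_cast; rfl
    _ ≤ ((s + d : ℕ) : Cardinal) := by
      have : T.card + ρ + m ≤ s + d := by omega
      exact_mod_cast this
    _ = (s : Cardinal) + zdim V := by rw [zdim, hd]; push_cast; rfl

/-- For every walk and every vector `v ≠ 0` the random orbit of `v` has almost surely the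
property `P`. -/
def AlmostAllOrbits {ι : Type} [Fintype ι] [DecidableEq ι] (P : (ℕ → ι → ℤ) → Prop) : Prop :=
  ∀ (W : Walk ι) (v : ι → ℤ), v ≠ 0 → ∀ᵐ w ∂(words W.m), P (fun t => orb W v w t)

/-- A positive proportion of the rational maps with the coefficient vectors `c 0, c 1, …` have a
pull-back of `V` without atypical intersections. -/
def ManyGood {m : ℕ} {D : Ind q k → ℕ} (c : ℕ → Coeffs m D) (A B : Fin n → ℂ)
    (V : Set (Fin m → ℂ)) : Prop :=
  ∃ δ : ℝ, 0 < δ ∧ ∀ᶠ N : ℕ in Filter.atTop, δ * (N : ℝ) ≤
    ({t : ℕ | t < N ∧ NoAtypical (A := A) (B := B) (pullback (c t) V) m (zdim V)}.ncard : ℝ)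

/-- This is the case for all elliptic curves and all irreducible `V ⊆ ℂ^m`. -/
def Simultaneous {m : ℕ} {D : Ind q k → ℕ} (c : ℕ → Coeffs m D) : Prop :=
  ∀ (A B : Fin n → ℂ) (V : Set (Fin m → ℂ)), (idealOf V).IsPrime → ManyGood c A B V

theorem result {n : ℕ} (q : Fin n → ℕ) (k m : ℕ) (hm : 0 < m)
    (D : Ind q k → ℕ) (hD : ∀ i, 0 < D i)
    (hDq : ∀ j : (i : Fin n) × Fin (q i), q j.1 ≤ D (Sum.inl j)) :
    AlmostAllOrbits (ι := Fin m × Fin 2 × ((i : Ind q k) → Fin (D i + 1))) Simultaneous := by
  classical
  intro W v hv
  obtain ⟨i0, hi0⟩ : ∃ i, v i ≠ 0 := by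
    by_contra hcon
    push Not at hcon
    exact hv (funext hcon)
  have hcard : 2 ≤ Fintype.card (Fin m × Fin 2 × ((i : Ind q k) → Fin (D i + 1))) := by
    rw [Fintype.card_prod, Fintype.card_prod, Fintype.card_fin, Fintype.card_fin]
    have h1 : 0 < Fintype.card ((i : Ind q k) → Fin (D i + 1)) :=
      Fintype.card_pos_iff.2 ⟨fun _ => 0⟩
    nlinarith
  filter_upwards [Pool.Agent.N87.RO.posAll Pool.Agent.N24.RW.t_ERG hcard W v] with w hw A B V hV
  obtain ⟨Q, G, hQ, hQp, hG, hmain⟩ := exists_good_class A B q k m V hV D hD hDq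
    (W.q₀ * (v i0).natAbs)
  have hpos : 0 < W.q₀ * (v i0).natAbs := Nat.mul_pos W.pos (Int.natAbs_pos.2 hi0)
  obtain ⟨δ, hδ, h⟩ := hw i0 Q G (⟨0, hm⟩, 1, fun _ => 0) hQ
    (Nat.coprime_of_dvd fun ℓ h1 h2 h3 => absurd (Nat.le_of_dvd hpos h3) (not_le.2 (hQp ℓ h1 h2)))
    (hG _)
  refine ⟨δ, hδ, ?_⟩
  filter_upwards [h] with N hN
  refine hN.trans ?_
  have h1 : {t : ℕ | t < N ∧ ∀ i, (Q : ℤ) ∣ orb W v w t i - G i}.ncard ≤
      {t : ℕ | t < N ∧ NoAtypical (A := A) (B := B) (pullback (orb W v w t) V) m
          (zdim V)}.ncard :=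
    Set.ncard_le_ncard (fun t ht => ⟨ht.1, hmain _ ht.2⟩)
      ((Set.finite_Iio N).subset fun t ht => ht.1)
  exact_mod_cast h1

end Pool.Agent.Results.MP_dd1803_nt.RandomOrbits
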