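import Pool.Agent.Results.MP_dd1803_nt.RandomMaps
import Pool.Agent.N943.TS.Density

/-!
# MP_dd1803_nt: Zilber-Pink in split semiabelian varieties for pull-backs under rational maps whose
coefficients are the values of generalised polynomials at one integer (or prime)

Let `E_i : y² = x³ + A_i x + B_i` be arbitrary elliptic curves over the complex numbers and let
`𝔖 = E_1^(q_1) × … × E_n^(q_n) × G_m^k` (`Amb`), of dimension `N = q_1 + … + q_n + k`, with the
coordinates `x(P_{i,l})` and `u_w`. The starting result `RandomMaps` considers the rational maps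
`F_c : 𝔖 ⇢ ℂ^m` whose `m` numerators and `m` denominators are polynomials of multidegree `D` in the
coordinates with the integral coefficient vector `c`, and shows for every irreducible `V ⊆ ℂ^m` that for
a positive proportion of all the vectors `c` in a box the pull-back `pullback c V` has no atypical
intersections with special subvarieties.

Here only a very thin set of vectors `c` is considered: for every coefficient let
`P(t) = ∑ a_x t ^ x` be a generalised polynomial (finitely many real exponents, real coefficients), such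
that the largest exponents `c_i` of the coefficients are distinct, positive and not integers, and have
positive coefficients. All the coefficients of the rational map are the integer parts of the values of
these functions at the same integer `t`: `F_t` is one of `T` maps, for `T < t ≤ 2 T`, among the
`T ^ (∑ c_i)` maps of the corresponding box.

**Theorem.** For every `V` there is a `δ > 0`, which depends on `𝔖`, `D` and `V` only (and on the
modulus `Q₀`), such that for all generalised polynomials and all large `T` for the proportion `δ` of the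
integers `t` in `(T, 2 T]`, and also for the proportion `δ` of the PRIMES in `(T, 2 T]`, the pull-back of
`V` under `F_t` has no atypical intersections with special subvarieties (and `F_t` is in a given residue
class modulo `Q₀`): for every `ρ` every irreducible closed subset of its intersection with the union of
the algebraic subgroups of codimension `ρ` has dimension at most `N - (m - dim V) - ρ`.

Proof: the residue class of coefficient vectors of the starting library (`TH971.SP`) and joint
equidistribution of the integer parts in residue classes, over the integers and over the primes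
(exponential sums, `Pool.Agent.N666.TM`).
-/

set_option autoImplicit false

namespace Pool.Agent.Results.MP_dd1803_nt.ThinSequences

open MvPolynomial Pool.Agent.W282.ZP
open Pool.Agent.Results.MP_dd1803_nt.RandomMaps

/-- `c` is the largest exponent of the generalised polynomial `∑ a_x t ^ x`; it is positive and not an
integer and has a positive coefficient. -/
def Admissible (F : Finset ℝ) (a : ℝ → ℝ) (c : ℝ) : Prop :=
  c ∈ F ∧ (∀ x ∈ F, x ≤ c) ∧ 0 < c ∧ (∀ m : ℕ, c ≠ m) ∧ 0 < a c

/-- The integer parts of the values at `t` of the generalised polynomials `∑ a_x t ^ x`. -/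
noncomputable def intParts {ι : Type} (F : ι → Finset ℝ) (a : ι → ℝ → ℝ) (t : ℕ) (i : ι) : ℤ :=
  ⌊∑ x ∈ F i, a i x * (t : ℝ) ^ x⌋

variable {n : ℕ} {q : Fin n → ℕ} {k : ℕ}

/-- The residue class of coefficient vectors without atypical intersections. -/
theorem exists_good_class (A B : Fin n → ℂ) (q : Fin n → ℕ) (k m : ℕ) (V : Set (Fin m → ℂ))
    (hV : (idealOf V).IsPrime) (D : Ind q k → ℕ) (hD : ∀ i, 0 < D i)
    (hDq : ∀ j : (i : Fin n) × Fin (q i), q j.1 ≤ D (Sum.inl j)) (Q₀ : ℕ) (hQ₀ : 0 < Q₀)
    (c₀ : Coeffs m D) :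
    ∃ (Q : ℕ) (G : Coeffs m D), 0 < Q ∧ ∀ c : Coeffs m D, (∀ i, (Q : ℤ) ∣ c i - G i) →
      (∀ i, (Q₀ : ℤ) ∣ c i - c₀ i) ∧ NoAtypical (A := A) (B := B) (pullback c V) m (zdim V) := by
  classical
  have hfin : Algebra.trdeg ℂ (MvPolynomial (Fin m) ℂ ⧸ idealOf V) < Cardinal.aleph0 :=
    trdeg_lt_aleph0_of_finiteType
  obtain ⟨d, hd⟩ := Cardinal.lt_aleph0.1 hfin
  obtain ⟨K, Q, G, hK, hQ, hmain⟩ := Pool.Agent.TH971.SP.exists_class' (q := q) (k := k) A B D hD
    hDq (idealOf V) hd Q₀ hQ₀ c₀
  refine ⟨Q, G, hQ, fun c hc => ?_⟩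
  obtain ⟨hc0, hkey⟩ := hmain c hc
  refine ⟨hc0, ?_⟩
  intro ρ s e W p hW hcl hprime hp
  obtain ⟨w, hwW, hpw, T, hT, hdimW⟩ :=
    Pool.Agent.W282.LF.generic_dim_open K W hprime hcl p hp
  obtain ⟨z, hzX, ⟨r, s', hρ, hE, a, ha, hau⟩, hwz⟩ := hW w hwW hpw
  choose E cc hcc hccP using hE
  have hco : Pool.Agent.TH971.SP.co (A := A) (B := B) z.P z.u = z.coord := by
    funext j
    rcases j with j | j
    · exact (xCoord_eq _).symm
    · rfl
  have hho : Pool.Agent.TH971.SP.hco (A := A) (B := B) z.P z.u = z.homog := by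
    funext j
    rcases j with j | j
    · by_cases h0 : z.P j.1 j.2 = 0
      · exact (if_pos h0).trans (if_pos h0).symm
      · refine (if_neg h0).trans (Eq.trans ?_ (if_neg h0).symm)
        rw [xCoord_eq]
    · rfl
  have hs : Fintype.card (Ind q k) = s := by
    rw [← Fintype.card_congr e, Fintype.card_fin]
  have h3 := hkey z.P z.u (by
      intro f hf
      rw [hho]
      exact hzX f hf) (fun i => toE (E i)) (fun i => relMod (E i) (z.P i)) (fun i a ha => ha)
      (relTor z.u z.ne_zero) (fun a ha => ha) (T.map e.toEmbedding) (by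
        rw [hco]
        have hT' : AlgebraicIndependent K (fun j : T => z.coord (e j)) := by
          convert hT using 1
          funext j
          exact (hwz j).symm
        let e' : (T.map e.toEmbedding : Finset (Ind q k)) ≃ T :=
          { toFun := fun j => ⟨e.symm j, by
              obtain ⟨t, ht, h⟩ := Finset.mem_map.1 j.2
              rw [← h]
              simpa using ht⟩
            invFun := fun j => ⟨e j, Finset.mem_map_of_mem _ j.2⟩
            left_inv := fun j => by simp
            right_inv := fun j => by simp }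
        have h5 := hT'.comp e' e'.injective
        convert h5 using 1
        funext j
        simp [e'])
  have h4 : ∀ i, r i ≤ Module.finrank (E i).O (relMod (E i) (z.P i)) := fun i =>
    le_finrank (E i) (z.P i) (cc i) (hcc i) (hccP i)
  have h5 := le_finrank_tor z.u z.ne_zero a ha hau
  have h6 : ∑ i, r i ≤ ∑ i, Module.finrank (E i).O (relMod (E i) (z.P i)) :=
    Finset.sum_le_sum fun i _ => h4 i
  have h7 : T.card + ∑ i, Module.finrank (E i).O (relMod (E i) (z.P i)) +
      Module.finrank ℤ (relTor z.u z.ne_zero) + m ≤ s + d := by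
    rw [Finset.card_map] at h3
    have hs' : Fintype.card (Pool.Agent.TH971.SP.Ix q k) = s := hs
    rw [hs'] at h3
    exact h3
  calc zdim W + (ρ : Cardinal) + (m : Cardinal)
      ≤ (T.card : Cardinal) + (ρ : Cardinal) + (m : Cardinal) := by gcongr
    _ = ((T.card + ρ + m : ℕ) : Cardinal) := by push_cast; rfl
    _ ≤ ((s + d : ℕ) : Cardinal) := by
      have : T.card + ρ + m ≤ s + d := by omega
      exact_mod_cast this
    _ = (s : Cardinal) + zdim V := by rw [zdim, hd]; push_cast; rfl

theorem result {n : ℕ} (A B : Fin n → ℂ) (q : Fin n → ℕ) (k m : ℕ) (hm : 0 < m)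
    (V : Set (Fin m → ℂ)) (hV : (idealOf V).IsPrime) (D : Ind q k → ℕ) (hD : ∀ i, 0 < D i)
    (hDq : ∀ j : (i : Fin n) × Fin (q i), q j.1 ≤ D (Sum.inl j)) (Q₀ : ℕ) (hQ₀ : 0 < Q₀)
    (c₀ : Coeffs m D) :
    ∃ δ : ℝ, 0 < δ ∧
      ∀ (F : Fin m × Fin 2 × ((i : Ind q k) → Fin (D i + 1)) → Finset ℝ)
        (a : Fin m × Fin 2 × ((i : Ind q k) → Fin (D i + 1)) → ℝ → ℝ)
        (c : Fin m × Fin 2 × ((i : Ind q k) → Fin (D i + 1)) → ℝ),
        (∀ i, Admissible (F i) (a i) (c i)) → Function.Injective c →
        ∀ᶠ T : ℕ in Filter.atTop,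
          δ * (T : ℝ) ≤ Nat.card {t : ℕ // t ∈ Finset.Ioc T (2 * T) ∧
            (∀ i, (Q₀ : ℤ) ∣ intParts F a t i - c₀ i) ∧
            NoAtypical (A := A) (B := B) (pullback (intParts F a t) V) m (zdim V)} ∧
          δ * (Nat.card {t : ℕ // t ∈ Finset.Ioc T (2 * T) ∧ t.Prime} : ℝ) ≤
            Nat.card {t : ℕ // t ∈ Finset.Ioc T (2 * T) ∧ t.Prime ∧
              (∀ i, (Q₀ : ℤ) ∣ intParts F a t i - c₀ i) ∧
              NoAtypical (A := A) (B := B) (pullback (intParts F a t) V) m (zdim V)} := by
  classical
  obtain ⟨Q, G, hQ, hgood⟩ := exists_good_class A B q k m V hV D hD hDq Q₀ hQ₀ c₀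
  have hne : Nonempty (Fin m × Fin 2 × ((i : Ind q k) → Fin (D i + 1))) :=
    ⟨(⟨0, hm⟩, 0, fun _ => 0)⟩
  refine ⟨1 / (2 * (Q : ℝ) ^ Fintype.card (Fin m × Fin 2 × ((i : Ind q k) → Fin (D i + 1)))),
    by positivity, fun F a c h hc => ?_⟩
  filter_upwards [Pool.Agent.N943.TS.thin_class h hc Q hQ G] with T hT
  obtain ⟨h1, h2⟩ := hT
  constructor
  · rw [Nat.card_Ioc, show 2 * T - T = T by omega] at h1
    refine h1.trans ?_
    refine Nat.cast_le.2 (Pool.Agent.N943.TS.card_le_natCard (v := Finset.Ioc T (2 * T))
      (fun t ht => ⟨(Finset.mem_filter.1 ht).1, hgood _ (Finset.mem_filter.1 ht).2⟩)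
      (fun t ht => ht.1))
  · refine le_trans (mul_le_mul_of_nonneg_left ?_ (by positivity)) (h2.trans ?_)
    · refine Nat.cast_le.2 (Pool.Agent.N943.TS.natCard_le_card
        (v := (Finset.Ioc T (2 * T)).filter Nat.Prime) (fun t ht => Finset.mem_filter.2 ht))
    · refine Nat.cast_le.2 (Pool.Agent.N943.TS.card_le_natCard (v := Finset.Ioc T (2 * T))
        (fun t ht => ⟨(Finset.mem_filter.1 (Finset.mem_filter.1 ht).1).1,
          (Finset.mem_filter.1 (Finset.mem_filter.1 ht).1).2, hgood _ (Finset.mem_filter.1 ht).2⟩)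
        (fun t ht => ht.1))

end Pool.Agent.Results.MP_dd1803_nt.ThinSequences
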